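import Pool.Agent.Q26.SD.LoC

/-!
# Project SD (helper240), job LoA
-/

set_option autoImplicit false

open Filter Topology Finset MeasureTheory

namespace Pool.Agent.Q26.SD

open Pool.Agent.Q240.SD (S_Pol S_LoA Ht)
open Pool.Agent.Y23 (Zt mu IsZ)

/-- JOB SD-LOA -/
theorem loA (h1 : S_Pol) : S_LoA := by
  classical
  obtain ⟨K, hK, hcw⟩ := Pool.Agent.Q240.EW.cw
  intro δ V hδ hδ2 hV
  obtain ⟨C0, hC0⟩ := core h1 hK hδ hδ2 hV
  refine ⟨C0, fun C hC => ?_⟩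
  obtain ⟨A, hA⟩ := hC0 C hC
  refine ⟨A, fun a ha ρ0 h2 h3 => ?_⟩
  set S : Finset ℂ := (Pool.Agent.Y23.isZ_finite (|(ρ0 : ℂ).im| + V)).toFinset.filter
    (fun s => |s.im - (ρ0 : ℂ).im| ≤ V) with hS
  have hmem : ∀ s, s ∈ S ↔ IsZ s ∧ |s.im - (ρ0 : ℂ).im| ≤ V := by
    intro s
    rw [hS, Finset.mem_filter, Set.Finite.mem_toFinset, Set.mem_ofPred_eq]
    constructor
    · rintro ⟨⟨h4, -⟩, h5⟩
      exact ⟨h4, h5⟩
    · rintro ⟨h4, h5⟩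
      refine ⟨⟨h4, ?_⟩, h5⟩
      have : |s.im| ≤ |s.im - (ρ0 : ℂ).im| + |(ρ0 : ℂ).im| := by
        have := abs_add_le (s.im - (ρ0 : ℂ).im) (ρ0 : ℂ).im
        rwa [sub_add_cancel] at this
      linarith
  have hcard : (S.card : ℝ) ≤ K * V * Real.log (3 + 3 * (Ht C a + V)) := by
    have h4 := hcw S (ρ0 : ℂ).im V (Ht C a + V) (fun s hs => ((hmem s).1 hs).1)
      (fun s hs => ((hmem s).1 hs).2) (by linarith) (by linarith) (by
        have : 0 ≤ Ht C a := (Real.exp_pos _).le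
        linarith)
    refine le_trans ?_ h4
    have h5 : S.card ≤ ∑ ρ ∈ S, mu ρ := by
      rw [Finset.card_eq_sum_ones]
      exact Finset.sum_le_sum fun s hs => Pool.Agent.Y23.mu_pos ((hmem s).1 hs).1
    exact_mod_cast h5
  obtain ⟨M, N, c, r, hr, g1, g2, g3, g4, g5⟩ := hA a ha S ρ0
    ((hmem _).2 ⟨ρ0.2, by rw [sub_self, abs_zero]; linarith⟩)
    (fun s hs => by
      have h4 := ((hmem s).1 hs).1
      rw [abs_le]
      constructor <;> linarith [h4.2.1, h4.2.2])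
    (fun s hs => ((hmem s).1 hs).2) h2 hcard
  exact ⟨M, N, c, r, hr, g1, g2, fun ρ hρ => g3 ρ ((hmem _).2 ⟨ρ.2, hρ⟩),
    fun ρ hρ h4 => g4 ρ ((hmem _).2 ⟨ρ.2, hρ⟩) h4, g5⟩

end Pool.Agent.Q26.SD
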