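import Pool.Agent.Q240.SD.Stm

/-!
# Project SD (helper240), job LoA: the estimates
-/

set_option autoImplicit false

open Filter Topology Finset MeasureTheory

namespace Pool.Agent.Q26.SD

open Pool.Agent.Q240.SD (S_Pol Ht)

lemma exp_close {y : ℂ} (hy : ‖y‖ ≤ 1) : ‖y‖ / 4 ≤ ‖Complex.exp y - 1‖ := by
  have h1 := Complex.exp_bound hy (n := 2) (by norm_num)
  have h2 : ∑ m ∈ range 2, y ^ m / (m.factorial : ℂ) = 1 + y := by
    simp [Finset.sum_range_succ]
  rw [h2] at h1
  have h3 : ‖y‖ ^ 2 * (((2 : ℕ).succ : ℝ) * (((2 : ℕ).factorial : ℝ) * ((2 : ℕ) : ℝ))⁻¹) = 3 / 4 * ‖y‖ ^ 2 := by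
    norm_num [Nat.factorial]
    ring
  have h4 : ‖y‖ ≤ ‖Complex.exp y - 1‖ + ‖Complex.exp y - (1 + y)‖ := by
    have e : y = (Complex.exp y - 1) - (Complex.exp y - (1 + y)) := by ring
    conv_lhs => rw [e]
    exact norm_sub_le _ _
  have h5 : ‖Complex.exp y - (1 + y)‖ ≤ 3 / 4 * ‖y‖ ^ 2 := by
    rw [← h3]; exact_mod_cast h1
  nlinarith [norm_nonneg y]

lemma one_sub_ge {u : ℝ} (h0 : 0 ≤ u) (h1 : u ≤ 1 / 2) : Real.exp (-(2 * u)) ≤ 1 - u := by
  rw [Real.exp_neg]
  have h2 := Real.add_one_le_exp (2 * u)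
  rw [inv_le_comm₀ (Real.exp_pos _) (by linarith)]
  refine le_trans ?_ h2
  rw [inv_le_comm₀ (by linarith) (by linarith), inv_eq_one_div, div_le_iff₀ (by linarith)]
  nlinarith

/-- the choice of the coefficients -/
theorem core (h1 : S_Pol) {K : ℝ} (hK : 0 < K) {δ V : ℝ} (hδ : 0 < δ) (hδ2 : δ ≤ 1 / 2) (hV : 2 ≤ V) :
    ∃ C0 : ℝ, ∀ C : ℝ, C0 ≤ C → ∃ A : ℝ, ∀ a : ℝ, A ≤ a → ∀ (S : Finset ℂ) (s0 : ℂ), s0 ∈ S →
      (∀ s ∈ S, |s.re - 1 / 2| ≤ 1 / 2) → (∀ s ∈ S, |s.im - s0.im| ≤ V) → 1 / 2 ≤ s0.re →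
      (S.card : ℝ) ≤ K * V * Real.log (3 + 3 * (Ht C a + V)) →
      ∃ (M N : ℕ) (c : ℕ → ℂ) (r : ℝ), 0 < r ∧
    2 * (1 - 3 * δ / 16) * a ≤ M / (V + 1) ∧ (M + N) / (V + 1) ≤ 2 * (1 - 2 * δ / 16) * a ∧
    (∀ s ∈ S, Complex.exp (M * (s - 1 / 2) / (V + 1)) * ∑ k ∈ Finset.range N, c k * Complex.exp (k * (s - 1 / 2) / (V + 1)) =
      if ‖Complex.exp ((s - 1 / 2) / (V + 1)) - Complex.exp ((s0 - 1 / 2) / (V + 1))‖ < r then 1 else 0) ∧
    (∀ s ∈ S, ‖Complex.exp ((s - 1 / 2) / (V + 1)) - Complex.exp ((s0 - 1 / 2) / (V + 1))‖ < r → ‖s - s0‖ ≤ 1 / 8) ∧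
    ∑ k ∈ Finset.range N, ‖c k‖ ≤ Real.exp (-(2 * a * (s0.re - 1 / 2 - δ / 4))) := by
  classical
  have hV1 : 0 < V + 1 := by linarith
  set B : ℝ := Real.log (1280 * (V + 1) / δ) with hB
  have hB0 : 3 ≤ 1280 * (V + 1) / δ := by
    rw [le_div_iff₀ hδ]
    nlinarith
  have hB1 : 1 ≤ B := by
    rw [hB, Real.le_log_iff_exp_le (by linarith)]
    have := Real.exp_one_lt_d9
    linarith
  set L : ℝ := Real.log (6 + 3 * V) with hL
  have hL0 : 0 ≤ L := Real.log_nonneg (by linarith)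
  refine ⟨32 * K * V * B / δ + 1, fun C hC => ⟨16 * K * V * B * L / δ + 8 / δ, fun a ha => ?_⟩⟩
  have hKVB : 0 < K * V * B := by positivity
  have hCpos : 0 < C := by
    have : 0 < 32 * K * V * B / δ := by positivity
    linarith
  have ha0 : 0 < a := by
    have h2 : 0 ≤ 16 * K * V * B * L / δ := by positivity
    have h3 : 0 < 8 / δ := by positivity
    linarith
  have haδ : 8 ≤ a * δ := by
    have h2 : 0 ≤ 16 * K * V * B * L / δ := by positivity
    have h3 : 8 / δ ≤ a := by linarith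
    rwa [div_le_iff₀ hδ] at h3
  have haL : 16 * K * V * B * L ≤ a * δ := by
    have h3 : 0 < 8 / δ := by positivity
    have h2 : 16 * K * V * B * L / δ ≤ a := by linarith
    rwa [div_le_iff₀ hδ] at h2
  have hCC : 32 * K * V * B ≤ C * δ := by
    have h2 : 32 * K * V * B / δ ≤ C := by linarith
    rwa [div_le_iff₀ hδ] at h2
  intro S s0 hs0 hre him hs0re hcard
  -- the number of the points
  have hT1 : 1 ≤ Ht C a := by
    rw [Ht]
    exact Real.one_le_exp (by positivity)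
  have hlog : Real.log (3 + 3 * (Ht C a + V)) ≤ 2 * a / C + L := by
    have e : 2 * a / C + L = Real.log (Ht C a * (6 + 3 * V)) := by
      rw [Real.log_mul (by positivity) (by positivity), Ht, Real.log_exp]
    rw [e]
    apply Real.log_le_log (by positivity)
    nlinarith
  have hNB : (S.card : ℝ) * B ≤ δ * a / 8 := by
    calc (S.card : ℝ) * B ≤ K * V * Real.log (3 + 3 * (Ht C a + V)) * B :=
          mul_le_mul_of_nonneg_right hcard (by linarith)
      _ ≤ K * V * (2 * a / C + L) * B := by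
          apply mul_le_mul_of_nonneg_right _ (by linarith)
          exact mul_le_mul_of_nonneg_left hlog (by positivity)
      _ = 2 * a * (K * V * B) / C + K * V * B * L := by ring
      _ ≤ δ * a / 16 + δ * a / 16 := by
          apply add_le_add
          · rw [div_le_iff₀ hCpos]
            nlinarith
          · nlinarith
      _ = δ * a / 8 := by ring
  set Z : Finset ℂ := S.image (fun s => Complex.exp ((s - 1 / 2) / (V + 1))) with hZ
  have hNS : Z.card ≤ S.card := Finset.card_image_le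
  have hNB' : (Z.card : ℝ) * B ≤ δ * a / 8 :=
    (mul_le_mul_of_nonneg_right (by exact_mod_cast hNS) (by linarith)).trans hNB
  have hNa : (Z.card : ℝ) ≤ δ * a / 8 := by
    have : (Z.card : ℝ) * 1 ≤ Z.card * B := mul_le_mul_of_nonneg_left hB1 (Nat.cast_nonneg _)
    linarith
  set z0 : ℂ := Complex.exp ((s0 - 1 / 2) / (V + 1)) with hz0
  have hdiv : ∀ s : ℂ, ((s - 1 / 2) / ((V : ℂ) + 1)).re = (s.re - 1 / 2) / (V + 1) := by
    intro s
    have e : ((V : ℂ) + 1) = ((V + 1 : ℝ) : ℂ) := by push_cast; rfl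
    rw [e, Complex.div_ofReal_re]
    congr 1
    simp
  have hnorm : ∀ s : ℂ, ‖Complex.exp ((s - 1 / 2) / ((V : ℂ) + 1))‖ = Real.exp ((s.re - 1 / 2) / (V + 1)) := by
    intro s
    rw [Complex.norm_exp, hdiv]
  set x : ℝ := s0.re - 1 / 2 with hx
  have hx0 : 0 ≤ x := by linarith
  have hx1 : x ≤ 1 / 2 := (le_abs_self _).trans (hre s0 hs0)
  have hz0n : ‖z0‖ = Real.exp (x / (V + 1)) := hnorm s0
  have hz01 : 1 ≤ ‖z0‖ := by
    rw [hz0n]
    exact Real.one_le_exp (by positivity)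
  set ρ : ℝ := δ / (32 * (V + 1)) with hρ
  have hρ0 : 0 < ρ := by positivity
  have hρ1 : ρ ≤ 1 / 192 := by
    rw [hρ, div_le_iff₀ (by positivity)]
    nlinarith
  set M : ℕ := ⌈2 * (1 - 3 * δ / 16) * a * (V + 1)⌉₊ with hM
  obtain ⟨r, c, hr1, hr2, hint, hsum⟩ := h1 Z z0 ρ M (Finset.mem_image_of_mem _ hs0) (by
    intro z hz
    obtain ⟨s, hs, rfl⟩ := Finset.mem_image.1 hz
    rw [hnorm]
    have h2 : (s.re - 1 / 2) / (V + 1) ≤ 1 / 2 := by
      rw [div_le_iff₀ hV1]
      have := (le_abs_self _).trans (hre s hs)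
      nlinarith
    calc Real.exp ((s.re - 1 / 2) / (V + 1)) ≤ Real.exp (1 / 2) := Real.exp_le_exp.2 h2
      _ ≤ 2 := by
        have h3 : Real.exp (1 / 2) ^ 2 ≤ 2 ^ 2 := by
          rw [← Real.exp_nat_mul]
          norm_num
          have := Real.exp_one_lt_d9
          linarith
        exact (abs_le_of_sq_le_sq' h3 (by norm_num)).2) hρ0 (by linarith) (by linarith)
  have hM1 : 2 * (1 - 3 * δ / 16) * a * (V + 1) ≤ M := Nat.le_ceil _
  have hM2 : (M : ℝ) < 2 * (1 - 3 * δ / 16) * a * (V + 1) + 1 := by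
    apply Nat.ceil_lt_add_one
    have : 0 < 1 - 3 * δ / 16 := by linarith
    positivity
  have hMlow : 2 * (1 - 3 * δ / 16) * a ≤ M / (V + 1) := by
    rw [le_div_iff₀ hV1]
    exact hM1
  have hMup : M / (V + 1) ≤ 2 * (1 - 3 * δ / 16) * a + 1 / (V + 1) := by
    rw [div_le_iff₀ hV1, add_mul, one_div_mul_cancel hV1.ne']
    exact hM2.le
  have hh3 : 1 / (V + 1) ≤ 1 / 3 := one_div_le_one_div_of_le (by norm_num) (by linarith)
  have hMup2 : M / (V + 1) ≤ 2 * a := by
    nlinarith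
  refine ⟨M, Z.card, c, r, by linarith, hMlow, ?_, ?_, ?_, ?_⟩
  · rw [add_div]
    have h2 : (Z.card : ℝ) / (V + 1) ≤ (δ * a / 8) / 3 := by
      rw [div_le_iff₀ hV1]
      nlinarith
    nlinarith
  · intro s hs
    have h2 := hint _ (Finset.mem_image_of_mem (fun s => Complex.exp ((s - 1 / 2) / (V + 1))) hs)
    rw [← h2]
    have hp : ∀ m : ℕ, Complex.exp (m * (s - 1 / 2) / (V + 1)) = Complex.exp ((s - 1 / 2) / (V + 1)) ^ m := by
      intro m
      rw [← Complex.exp_nat_mul, mul_div_assoc]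
    rw [hp]
    congr 1
    exact Finset.sum_congr rfl fun k _ => by rw [hp]
  · intro s hs hlt
    set y : ℂ := (s - s0) / ((V : ℂ) + 1) with hy
    have hVn : ‖((V : ℂ) + 1)‖ = V + 1 := by
      have e : ((V : ℂ) + 1) = ((V + 1 : ℝ) : ℂ) := by push_cast; rfl
      rw [e, Complex.norm_real, Real.norm_of_nonneg hV1.le]
    have hyn : ‖y‖ = ‖s - s0‖ / (V + 1) := by rw [hy, norm_div, hVn]
    have hws : ‖s - s0‖ ≤ V + 1 := by
      have h3 : |(s - s0).re| ≤ 1 := by
        rw [Complex.sub_re]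
        have h4 := abs_le.1 (hre s hs)
        rw [abs_le]
        constructor <;> linarith
      have h5 : |(s - s0).im| ≤ V := by
        rw [Complex.sub_im]
        exact him s hs
      linarith [Complex.norm_le_abs_re_add_abs_im (s - s0)]
    have hy1 : ‖y‖ ≤ 1 := by
      rw [hyn, div_le_one hV1]
      exact hws
    have h3 := exp_close hy1
    have h4 : Complex.exp ((s - 1 / 2) / (V + 1)) - z0 = z0 * (Complex.exp y - 1) := by
      rw [mul_sub, mul_one, hz0, ← Complex.exp_add]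
      congr 2
      rw [hy]
      ring
    rw [h4, norm_mul] at hlt
    have h5 : ‖Complex.exp y - 1‖ ≤ ‖z0‖ * ‖Complex.exp y - 1‖ := by
      nlinarith [norm_nonneg (Complex.exp y - 1)]
    have h6 : ‖s - s0‖ / (V + 1) ≤ 4 * ρ := by
      rw [← hyn]
      linarith
    rw [div_le_iff₀ hV1, hρ] at h6
    have h7 : 4 * (δ / (32 * (V + 1))) * (V + 1) = δ / 8 := by
      field_simp
      ring
    rw [h7] at h6
    linarith
  · refine hsum.trans ?_
    -- the first factor
    have hf1 : (40 / ρ) ^ Z.card ≤ Real.exp (δ * a / 8) := by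
      have e : 40 / ρ = 1280 * (V + 1) / δ := by
        rw [hρ]
        field_simp
        ring
      rw [e, ← Real.exp_log (show 0 < 1280 * (V + 1) / δ by linarith), ← Real.exp_nat_mul, ← hB]
      exact Real.exp_le_exp.2 hNB'
    have hf2 : Real.exp ((x - δ / 16) / (V + 1)) ≤ ‖z0‖ - ρ := by
      have h2 := one_sub_ge hρ0.le (by linarith)
      have h3 : Real.exp ((x - δ / 16) / (V + 1)) = Real.exp (x / (V + 1)) * Real.exp (-(2 * ρ)) := by
        rw [← Real.exp_add]
        congr 1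
        rw [hρ]
        field_simp
        ring
      rw [h3, hz0n]
      have h4 : 1 ≤ Real.exp (x / (V + 1)) := by rw [← hz0n]; exact hz01
      calc Real.exp (x / (V + 1)) * Real.exp (-(2 * ρ)) ≤ Real.exp (x / (V + 1)) * (1 - ρ) :=
            mul_le_mul_of_nonneg_left h2 (by positivity)
        _ ≤ Real.exp (x / (V + 1)) - ρ := by nlinarith
    have hf3 : (1 / (‖z0‖ - ρ)) ^ M ≤ Real.exp (-(M / (V + 1) * (x - δ / 16))) := by
      have h2 : 1 / (‖z0‖ - ρ) ≤ Real.exp (-((x - δ / 16) / (V + 1))) := by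
        rw [Real.exp_neg, inv_eq_one_div]
        exact one_div_le_one_div_of_le (Real.exp_pos _) hf2
      calc (1 / (‖z0‖ - ρ)) ^ M ≤ Real.exp (-((x - δ / 16) / (V + 1))) ^ M :=
            pow_le_pow_left₀ (by
              have : 0 < ‖z0‖ - ρ := by linarith
              positivity) h2 M
        _ = _ := by
            rw [← Real.exp_nat_mul]
            congr 1
            ring
    calc (40 / ρ) ^ Z.card * (1 / (‖z0‖ - ρ)) ^ M ≤ Real.exp (δ * a / 8) * Real.exp (-(M / (V + 1) * (x - δ / 16))) := by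
          apply mul_le_mul hf1 hf3 _ (by positivity)
          have : 0 < ‖z0‖ - ρ := by linarith
          positivity
      _ = Real.exp (δ * a / 8 - M / (V + 1) * (x - δ / 16)) := by rw [← Real.exp_add]; congr 1
      _ ≤ _ := by
          apply Real.exp_le_exp.2
          have hkey : 2 * a * (x - 3 * δ / 16) ≤ M / (V + 1) * (x - δ / 16) := by
            by_cases hxx : δ / 16 ≤ x
            · have h2 : 2 * (1 - 3 * δ / 16) * a * (x - δ / 16) ≤ M / (V + 1) * (x - δ / 16) :=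
                mul_le_mul_of_nonneg_right hMlow (by linarith)
              have h3 : 0 ≤ 2 * a * δ := by positivity
              have h4 : x - δ / 16 ≤ 1 / 2 := by linarith
              have h5 : 2 * a * δ * (x - δ / 16) ≤ 2 * a * δ * (1 / 2) := mul_le_mul_of_nonneg_left h4 h3
              nlinarith
            · have h2 : 2 * a * (x - δ / 16) ≤ M / (V + 1) * (x - δ / 16) :=
                mul_le_mul_of_nonpos_right hMup2 (by linarith)
              nlinarith
          have : -(2 * a * (x - δ / 4)) = δ * a / 8 - 2 * a * (x - 3 * δ / 16) := by ring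
          rw [this]
          linarith

end Pool.Agent.Q26.SD
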